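import Pool.Agent.H71.DM.Defs

set_option autoImplicit false

/-!
Common lemmas.
-/

namespace Pool.Agent.H71.DM

open Finset

/-! ## Indicators -/

theorem ind_true {P : Prop} (h : P) : ind P = 1 := by simp [ind, h]
theorem ind_false {P : Prop} (h : ¬ P) : ind P = 0 := by simp [ind, h]
theorem ind_nonneg (P : Prop) : 0 ≤ ind P := by unfold ind; split_ifs <;> simp
theorem ind_le_one (P : Prop) : ind P ≤ 1 := by unfold ind; split_ifs <;> simp
theorem ind_mono {P Q : Prop} (h : P → Q) : ind P ≤ ind Q := by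
  by_cases hP : P
  · rw [ind_true hP, ind_true (h hP)]
  · rw [ind_false hP]; exact ind_nonneg Q
theorem ind_congr {P Q : Prop} (h : P ↔ Q) : ind P = ind Q := by
  rw [propext h]
theorem ind_and (P Q : Prop) : ind (P ∧ Q) = ind P * ind Q := by
  by_cases hP : P <;> by_cases hQ : Q <;> simp [ind, hP, hQ]
theorem ind_not (P : Prop) : ind (¬ P) = 1 - ind P := by
  by_cases hP : P <;> simp [ind, hP]
theorem ind_or_le (P Q : Prop) : ind (P ∨ Q) ≤ ind P + ind Q := by
  by_cases hP : P <;> by_cases hQ : Q <;> simp [ind, hP, hQ]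
theorem ind_mul_self (P : Prop) : ind P * ind P = ind P := by
  by_cases hP : P <;> simp [ind, hP]
theorem ind_eq_zero_or_one (P : Prop) : ind P = 0 ∨ ind P = 1 := by
  by_cases hP : P <;> simp [ind, hP]

section Ex

variable {α β : Type} [Fintype α] [Fintype β]

/-! ## Expectation -/

theorem ex_add (w f g : α → ℝ) : ex w (fun a => f a + g a) = ex w f + ex w g := by
  unfold ex; rw [← Finset.sum_add_distrib]; exact Finset.sum_congr rfl fun a _ => by ring

theorem ex_sub (w f g : α → ℝ) : ex w (fun a => f a - g a) = ex w f - ex w g := by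
  unfold ex; rw [← Finset.sum_sub_distrib]; exact Finset.sum_congr rfl fun a _ => by ring

theorem ex_mul_left (w f : α → ℝ) (c : ℝ) : ex w (fun a => c * f a) = c * ex w f := by
  unfold ex; rw [Finset.mul_sum]; exact Finset.sum_congr rfl fun a _ => by ring

theorem ex_mul_right (w f : α → ℝ) (c : ℝ) : ex w (fun a => f a * c) = ex w f * c := by
  unfold ex; rw [Finset.sum_mul]; exact Finset.sum_congr rfl fun a _ => by ring

theorem ex_neg (w f : α → ℝ) : ex w (fun a => - f a) = - ex w f := by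
  unfold ex; rw [← Finset.sum_neg_distrib]; exact Finset.sum_congr rfl fun a _ => by ring

theorem ex_const {w : α → ℝ} (hw : IsProb w) (c : ℝ) : ex w (fun _ => c) = c := by
  unfold ex; rw [← Finset.sum_mul, hw.2, one_mul]

theorem ex_zero (w : α → ℝ) : ex w (fun _ => 0) = 0 := by simp [ex]

theorem ex_congr {w f g : α → ℝ} (h : ∀ a, w a ≠ 0 → f a = g a) : ex w f = ex w g := by
  unfold ex
  refine Finset.sum_congr rfl fun a _ => ?_
  by_cases ha : w a = 0
  · simp [ha]
  · rw [h a ha]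

theorem ex_mono {w f g : α → ℝ} (hw : ∀ a, 0 ≤ w a) (h : ∀ a, w a ≠ 0 → f a ≤ g a) :
    ex w f ≤ ex w g := by
  unfold ex
  refine Finset.sum_le_sum fun a _ => ?_
  by_cases ha : w a = 0
  · simp [ha]
  · exact mul_le_mul_of_nonneg_left (h a ha) (hw a)

theorem ex_mono' {w f g : α → ℝ} (hw : ∀ a, 0 ≤ w a) (h : ∀ a, f a ≤ g a) :
    ex w f ≤ ex w g := ex_mono hw fun a _ => h a

theorem ex_nonneg {w f : α → ℝ} (hw : ∀ a, 0 ≤ w a) (h : ∀ a, 0 ≤ f a) : 0 ≤ ex w f :=
  Finset.sum_nonneg fun a _ => mul_nonneg (hw a) (h a)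

theorem ex_le {w f : α → ℝ} (hw : IsProb w) {c : ℝ} (h : ∀ a, w a ≠ 0 → f a ≤ c) :
    ex w f ≤ c := by
  rw [← ex_const hw c]; exact ex_mono hw.1 h

theorem le_ex {w f : α → ℝ} (hw : IsProb w) {c : ℝ} (h : ∀ a, w a ≠ 0 → c ≤ f a) :
    c ≤ ex w f := by
  conv_lhs => rw [← ex_const hw c]
  exact ex_mono hw.1 h

theorem abs_ex_le {w f : α → ℝ} (hw : ∀ a, 0 ≤ w a) : |ex w f| ≤ ex w (fun a => |f a|) := by
  unfold ex
  refine (Finset.abs_sum_le_sum_abs _ _).trans (Finset.sum_le_sum fun a _ => ?_)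
  rw [abs_mul, abs_of_nonneg (hw a)]

/-- exchange of two expectations -/
theorem ex_comm (w : α → ℝ) (w' : β → ℝ) (f : α → β → ℝ) :
    ex w (fun a => ex w' (fun b => f a b)) = ex w' (fun b => ex w (fun a => f a b)) := by
  unfold ex
  simp only [Finset.mul_sum]
  rw [Finset.sum_comm]
  exact Finset.sum_congr rfl fun b _ => Finset.sum_congr rfl fun a _ => by ring

theorem ex_sum {ι : Type*} (s : Finset ι) (w : α → ℝ) (f : ι → α → ℝ) :
    ex w (fun a => ∑ i ∈ s, f i a) = ∑ i ∈ s, ex w (f i) := by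
  unfold ex
  simp only [Finset.mul_sum]
  rw [Finset.sum_comm]

/-- Cauchy-Schwarz -/
theorem sq_ex_le {w f : α → ℝ} (hw : IsProb w) : (ex w f) ^ 2 ≤ ex w (fun a => f a ^ 2) := by
  have h : 0 ≤ ex w (fun a => (f a - ex w f) ^ 2) := ex_nonneg hw.1 fun a => sq_nonneg _
  have h2 : ex w (fun a => (f a - ex w f) ^ 2) = ex w (fun a => f a ^ 2) - (ex w f) ^ 2 := by
    have : ∀ a, (f a - ex w f) ^ 2 = f a ^ 2 - (2 * ex w f) * f a + (ex w f) ^ 2 := by
      intro a; ring
    simp only [this]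
    rw [ex_add, ex_sub, ex_mul_left, ex_const hw]
    ring
  linarith

/-! ## Probability -/

theorem pr_nonneg {w : α → ℝ} (hw : ∀ a, 0 ≤ w a) (P : α → Prop) : 0 ≤ pr w P :=
  ex_nonneg hw fun _ => ind_nonneg _

theorem pr_le_one {w : α → ℝ} (hw : IsProb w) (P : α → Prop) : pr w P ≤ 1 :=
  ex_le hw fun _ _ => ind_le_one _

theorem pr_mono {w : α → ℝ} (hw : ∀ a, 0 ≤ w a) {P Q : α → Prop}
    (h : ∀ a, w a ≠ 0 → P a → Q a) : pr w P ≤ pr w Q :=
  ex_mono hw fun a ha => ind_mono (h a ha)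

theorem pr_mono' {w : α → ℝ} (hw : ∀ a, 0 ≤ w a) {P Q : α → Prop}
    (h : ∀ a, P a → Q a) : pr w P ≤ pr w Q := pr_mono hw fun a _ => h a

theorem pr_congr {w : α → ℝ} {P Q : α → Prop} (h : ∀ a, w a ≠ 0 → (P a ↔ Q a)) :
    pr w P = pr w Q := ex_congr fun a ha => ind_congr (h a ha)

theorem pr_true {w : α → ℝ} (hw : IsProb w) : pr w (fun _ => True) = 1 := by
  have : pr w (fun _ => True) = ex w (fun _ => 1) := ex_congr fun a _ => ind_true trivial
  rw [this, ex_const hw]

theorem pr_false (w : α → ℝ) : pr w (fun _ => False) = 0 := by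
  have : pr w (fun _ => False) = ex w (fun _ => 0) := ex_congr fun a _ => ind_false id
  rw [this, ex_zero]

theorem pr_not {w : α → ℝ} (hw : IsProb w) (P : α → Prop) :
    pr w (fun a => ¬ P a) = 1 - pr w P := by
  have : pr w (fun a => ¬ P a) = ex w (fun a => 1 - ind (P a)) :=
    ex_congr fun a _ => ind_not _
  rw [this, ex_sub, ex_const hw]; rfl

theorem pr_or_le {w : α → ℝ} (hw : ∀ a, 0 ≤ w a) (P Q : α → Prop) :
    pr w (fun a => P a ∨ Q a) ≤ pr w P + pr w Q := by
  unfold pr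
  rw [← ex_add]
  exact ex_mono' hw fun a => ind_or_le _ _

theorem pr_le_add {w : α → ℝ} (hw : ∀ a, 0 ≤ w a) {P Q R : α → Prop}
    (h : ∀ a, w a ≠ 0 → P a → Q a ∨ R a) : pr w P ≤ pr w Q + pr w R :=
  (pr_mono hw h).trans (pr_or_le hw Q R)

theorem pr_split (w : α → ℝ) (P Q : α → Prop) :
    pr w P = pr w (fun a => P a ∧ Q a) + pr w (fun a => P a ∧ ¬ Q a) := by
  unfold pr
  rw [← ex_add]
  refine ex_congr fun a _ => ?_
  by_cases hP : P a <;> by_cases hQ : Q a <;> simp [ind, hP, hQ]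

theorem pr_exists_le {ι : Type*} [Fintype ι] {w : α → ℝ} (hw : ∀ a, 0 ≤ w a)
    (P : ι → α → Prop) : pr w (fun a => ∃ i, P i a) ≤ ∑ i, pr w (P i) := by
  unfold pr
  rw [← ex_sum]
  refine ex_mono' hw fun a => ?_
  by_cases h : ∃ i, P i a
  · obtain ⟨i, hi⟩ := h
    rw [ind_true ⟨i, hi⟩]
    have h1 := Finset.single_le_sum (f := fun i => ind (P i a)) (fun j _ => ind_nonneg _)
      (Finset.mem_univ i)
    simpa [ind_true hi] using h1
  · rw [ind_false h]
    exact Finset.sum_nonneg fun i _ => ind_nonneg _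

theorem exists_of_pr_pos {w : α → ℝ} {P : α → Prop} (h : 0 < pr w P) :
    ∃ a, w a ≠ 0 ∧ P a := by
  by_contra hcon
  push Not at hcon
  have : pr w P = ex w (fun _ => 0) := ex_congr fun a ha => ind_false (hcon a ha)
  rw [this, ex_zero] at h
  exact lt_irrefl _ h

theorem exists_of_pr_lt {w : α → ℝ} (hw : ∀ a, 0 ≤ w a) {P Q : α → Prop}
    (h : pr w Q < pr w P) : ∃ a, w a ≠ 0 ∧ P a ∧ ¬ Q a := by
  by_contra hcon
  push Not at hcon
  exact absurd (pr_mono hw fun a ha hP => hcon a ha hP) (not_le.mpr h)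

theorem pr_eq (w : α → ℝ) (a : α) : pr w (fun b => b = a) = w a := by
  classical
  unfold pr ex
  rw [Finset.sum_eq_single a]
  · simp [ind]
  · intro b _ hb
    simp [ind, hb]
  · simp

/-- Markov -/
theorem markov {w f : α → ℝ} (hw : ∀ a, 0 ≤ w a) (hf : ∀ a, 0 ≤ f a) {c : ℝ} (hc : 0 < c) :
    pr w (fun a => c ≤ f a) ≤ ex w f / c := by
  rw [le_div_iff₀ hc]
  unfold pr
  rw [← ex_mul_right]
  refine ex_mono' hw fun a => ?_
  by_cases h : c ≤ f a
  · rw [ind_true h]; linarith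
  · rw [ind_false h]; simpa using hf a

theorem markov_lt {w f : α → ℝ} (hw : ∀ a, 0 ≤ w a) (hf : ∀ a, 0 ≤ f a) {c : ℝ} (hc : 0 < c) :
    pr w (fun a => c < f a) ≤ ex w f / c :=
  (pr_mono' hw fun _ h => h.le).trans (markov hw hf hc)

/-- reverse Markov -/
theorem reverse_markov {w f : α → ℝ} (hw : IsProb w) (hf : ∀ a, f a ≤ 1) {c : ℝ} (hc : 0 ≤ c)
    (h : c ≤ ex w f) : c / 2 ≤ pr w (fun a => c / 2 ≤ f a) := by
  have h1 : ex w f ≤ ex w (fun a => ind (c / 2 ≤ f a) + c / 2) := by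
    refine ex_mono' hw.1 fun a => ?_
    by_cases hP : c / 2 ≤ f a
    · rw [ind_true hP]; have := hf a; linarith
    · rw [ind_false hP]; push Not at hP; linarith
  rw [ex_add, ex_const hw] at h1
  unfold pr
  linarith

theorem single_prob [DecidableEq α] (a : α) : IsProb (Pi.single a (1:ℝ) : α → ℝ) := by
  constructor
  · intro v
    by_cases h : v = a
    · subst h; simp
    · simp [h]
  · simp

theorem le_one_of_prob {w : α → ℝ} (hw : IsProb w) (a : α) : w a ≤ 1 := by
  rw [← hw.2]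
  exact Finset.single_le_sum (f := w) (fun b _ => hw.1 b) (mem_univ a)

/-- there are at most `1/θ` atoms of weight at least `θ` -/
theorem card_atoms {w : α → ℝ} (hw : IsProb w) {θ : ℝ} (s : Finset α) (h : ∀ a ∈ s, θ ≤ w a) :
    (s.card : ℝ) * θ ≤ 1 := by
  rw [← hw.2]
  calc (s.card : ℝ) * θ = ∑ _a ∈ s, θ := by rw [Finset.sum_const, nsmul_eq_mul]
    _ ≤ ∑ a ∈ s, w a := Finset.sum_le_sum h
    _ ≤ ∑ a, w a := Finset.sum_le_sum_of_subset_of_nonneg (subset_univ s) fun a _ _ => hw.1 a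

end Ex

/-! ## Product weights, dependence -/

section Dep

variable {I X : Type}

theorem prodW_nonneg [Fintype I] {q : I → X → ℝ} (hq : ∀ i x, 0 ≤ q i x) (x : I → X) :
    0 ≤ prodW q x := Finset.prod_nonneg fun i _ => hq i _

theorem prodW_prob [Fintype I] [DecidableEq I] [Fintype X] {q : I → X → ℝ}
    (hq : ∀ i, IsProb (q i)) : IsProb (prodW q) := by
  classical
  constructor
  · intro f
    exact Finset.prod_nonneg fun i _ => (hq i).1 _
  · unfold prodW
    have h := Finset.prod_univ_sum (fun _ : I => (univ : Finset X)) (fun i v => q i v)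
    rw [Fintype.piFinset_univ] at h
    rw [← h]
    exact Finset.prod_eq_one fun i _ => (hq i).2

theorem ne_zero_of_prodW [Fintype I] {q : I → X → ℝ} {x : I → X} (h : prodW q x ≠ 0) (i : I) :
    q i (x i) ≠ 0 := by
  intro h0
  exact h (Finset.prod_eq_zero (mem_univ i) h0)

theorem mix_mem [DecidableEq I] {E : Finset I} (x y : I → X) {i : I} (h : i ∈ E) :
    mix E x y i = x i := by simp [mix, h]

theorem mix_not_mem [DecidableEq I] {E : Finset I} (x y : I → X) {i : I} (h : i ∉ E) :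
    mix E x y i = y i := by simp [mix, h]

theorem DepOn.mix [DecidableEq I] {β : Sort*} {E : Finset I} {f : (I → X) → β} (h : DepOn E f)
    (x y : I → X) : f (DM.mix E x y) = f x := h _ _ fun _ hi => mix_mem x y hi

theorem DepOn.mono {β : Sort*} {E E' : Finset I} {f : (I → X) → β} (h : DepOn E f)
    (hE : E ⊆ E') : DepOn E' f := fun x y hxy => h x y fun i hi => hxy i (hE hi)

theorem mix_congr [DecidableEq I] {E : Finset I} {x x' : I → X} (h : ∀ i ∈ E, x i = x' i)
    (y : I → X) : mix E x y = mix E x' y := by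
  funext i
  by_cases hi : i ∈ E
  · simp [mix, hi, h i hi]
  · simp [mix, hi]

variable {V : Type} [Fintype V] [Fintype I] [DecidableEq I] [Fintype X]

omit [Fintype V] in
theorem depOn_mean (q : I → X → ℝ) (b : (I → X) → Finset V) (u : Finset V → V → ℝ)
    (E : Finset I) : DepOn E (mean q b u E) := by
  intro x x' h
  funext a
  unfold mean
  congr 1
  funext y
  rw [mix_congr h]

theorem ex_mean (q : I → X → ℝ) (b : (I → X) → Finset V) (u : Finset V → V → ℝ)
    (E : Finset I) (x : I → X) (f : V → ℝ) :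
    ex (mean q b u E x) f = ex (prodW q) (fun y => ex (u (b (mix E x y))) f) := by
  unfold mean ex
  simp only [Finset.sum_mul, Finset.mul_sum]
  rw [Finset.sum_comm]
  exact Finset.sum_congr rfl fun y _ => Finset.sum_congr rfl fun a _ => by ring

theorem pr_mean (q : I → X → ℝ) (b : (I → X) → Finset V) (u : Finset V → V → ℝ)
    (E : Finset I) (x : I → X) (P : V → Prop) :
    pr (mean q b u E x) P = ex (prodW q) (fun y => pr (u (b (mix E x y))) P) :=
  ex_mean q b u E x _

theorem mean_prob {q : I → X → ℝ} (hq : ∀ i, IsProb (q i)) (b : (I → X) → Finset V)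
    {u : Finset V → V → ℝ} (hu : ∀ c, IsProb (u c)) (E : Finset I) (x : I → X) :
    IsProb (mean q b u E x) := by
  have hw := prodW_prob hq
  constructor
  · intro a
    exact ex_nonneg hw.1 fun y => (hu _).1 a
  · have h := ex_mean q b u E x (fun _ => 1)
    have h2 : ex (mean q b u E x) (fun _ => 1) = ∑ a, mean q b u E x a := by
      unfold ex; simp
    rw [← h2, h]
    have : ∀ y, ex (u (b (mix E x y))) (fun _ => (1:ℝ)) = 1 := fun y => ex_const (hu _) 1
    simp only [this]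
    exact ex_const hw 1

omit [Fintype V] in
theorem mean_supp {q : I → X → ℝ} {b : (I → X) → Finset V}
    {u : Finset V → V → ℝ} {S : Set V} (hu : ∀ x, ∀ a, u (b x) a ≠ 0 → a ∈ S) {E : Finset I}
    {x : I → X} {a : V} (h : mean q b u E x a ≠ 0) : a ∈ S := by
  by_contra hS
  apply h
  unfold mean
  have : ∀ y, u (b (mix E x y)) a = 0 := fun y => by
    by_contra h0
    exact hS (hu _ _ h0)
  simp only [this]
  exact ex_zero _

end Dep

/-! ## Rich sets -/

theorem KRich.mono {V : Type} {adj : V → V → Prop} {k k' : ℕ} {S S' : Set V}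
    (h : KRich adj k S) (hk : k' ≤ k) (hS : S ⊆ S') : KRich adj k' S' := by
  intro D hD
  obtain ⟨y, hy, hd⟩ := h D (hD.trans hk)
  exact ⟨y, hS hy, hd⟩

/-- a bounded set dominating `S` -/
theorem not_krich {V : Type} {adj : V → V → Prop} {k : ℕ} {S : Set V} :
    ¬ KRich adj k S ↔ ∃ D : Finset V, D.card ≤ k ∧ ∀ y ∈ S, ∃ d ∈ D, ¬ adj y d := by
  unfold KRich
  push Not
  rfl

theorem KRich.nonempty {V : Type} {adj : V → V → Prop} {k : ℕ} {S : Set V}
    (h : KRich adj k S) : S.Nonempty := by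
  obtain ⟨y, hy, -⟩ := h ∅ (by simp)
  exact ⟨y, hy⟩

theorem not_rich {G : TSeq} {S : ∀ n, Set (G.V n)} :
    ¬ Rich G S ↔ ∃ k, ∀ᶠ n in UU, ¬ KRich (G.adj n) k (S n) := by
  unfold Rich
  rw [not_forall]
  exact exists_congr fun k => Ultrafilter.eventually_not.symm

/-- negation along the ultrafilter -/
theorem ev_not {P : ℕ → Prop} : (∀ᶠ n in UU, ¬ P n) ↔ ¬ ∀ᶠ n in UU, P n :=
  Ultrafilter.eventually_not

theorem ev_or {P Q : ℕ → Prop} : (∀ᶠ n in UU, P n ∨ Q n) ↔
    (∀ᶠ n in UU, P n) ∨ ∀ᶠ n in UU, Q n := Ultrafilter.eventually_or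

theorem ev_exists {P : ℕ → Prop} (h : ∀ᶠ n in UU, P n) : ∃ n, P n := h.exists

theorem ev_ge (k : ℕ) : ∀ᶠ n in UU, k ≤ n := by
  have h : (UU : Filter ℕ) ≤ Filter.atTop := by
    rw [← Nat.cofinite_eq_atTop]
    exact Filter.hyperfilter_le_cofinite
  exact h (Filter.eventually_ge_atTop k)

theorem Rich.mono {G : TSeq} {S S' : ∀ n, Set (G.V n)} (h : Rich G S)
    (hS : ∀ᶠ n in UU, S n ⊆ S' n) : Rich G S' := by
  intro k
  filter_upwards [h k, hS] with n h1 h2
  exact h1.mono le_rfl h2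

theorem Rich.sub {G : TSeq} {S S' : ∀ n, Set (G.V n)} (h : Rich G S) (hS : Sub G S S') :
    Rich G S' := h.mono (Filter.Eventually.of_forall hS)

theorem Sub.refl {G : TSeq} (S : ∀ n, Set (G.V n)) : Sub G S S := fun _ => subset_rfl

theorem Sub.trans {G : TSeq} {S T R : ∀ n, Set (G.V n)} (h : Sub G S T) (h' : Sub G T R) :
    Sub G S R := fun n => (h n).trans (h' n)

theorem Homog.mono {G : TSeq} {S S' μ f : _} {δ δ' : ℝ} (h : Homog G S μ f δ)
    (hS : Sub G S' S) (hδ : δ ≤ δ') : Homog G S' μ f δ' := by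
  intro g hg hr
  refine h g hg (hr.sub fun n s hs => ?_)
  exact ⟨hS n hs.1, lt_of_le_of_lt hδ hs.2⟩

end Pool.Agent.H71.DM
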