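import Mathlib

set_option autoImplicit false

/-!
Definitions for the proof that every poset tournament is unavoidable in tournaments of large
domination number (MP_c1331e_co).
-/

namespace Pool.Agent.H71.DM

open Finset

/-- the fixed nonprincipal ultrafilter on the natural numbers -/
noncomputable abbrev UU : Filter ℕ := ((Filter.hyperfilter ℕ : Ultrafilter ℕ) : Filter ℕ)

/-! ## Finite probability -/

section Prob

/-- probability weights on a finite type -/
def IsProb {α : Type} [Fintype α] (w : α → ℝ) : Prop := (∀ a, 0 ≤ w a) ∧ ∑ a, w a = 1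

open Classical in
/-- the indicator of a proposition -/
noncomputable def ind (P : Prop) : ℝ := if P then 1 else 0

/-- expectation -/
noncomputable def ex {α : Type} [Fintype α] (w f : α → ℝ) : ℝ := ∑ a, w a * f a

/-- probability -/
noncomputable def pr {α : Type} [Fintype α] (w : α → ℝ) (P : α → Prop) : ℝ :=
  ex w (fun a => ind (P a))

/-- product weights -/
noncomputable def prodW {I X : Type} [Fintype I] (q : I → X → ℝ) (x : I → X) : ℝ :=
  ∏ i, q i (x i)

/-- the coordinates of `x` on `E`, those of `y` elsewhere -/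
def mix {I X : Type} [DecidableEq I] (E : Finset I) (x y : I → X) : I → X :=
  fun i => if i ∈ E then x i else y i

/-- `f` depends only on the coordinates in `E` -/
def DepOn {I X : Type} {β : Sort*} (E : Finset I) (f : (I → X) → β) : Prop :=
  ∀ x y, (∀ i ∈ E, x i = y i) → f x = f y

/-- replace the coordinates in the range of `e` by `x` -/
noncomputable def plug {I J X : Type} (e : I → J) (x : I → X) (w : J → X) : J → X :=
  Function.extend e x w

end Prob

/-! ## Tournaments -/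

section Tour

variable {V : Type}

/-- every set of at most `k` vertices is beaten by some vertex of `S` -/
def KRich (adj : V → V → Prop) (k : ℕ) (S : Set V) : Prop :=
  ∀ D : Finset V, D.card ≤ k → ∃ y ∈ S, ∀ d ∈ D, adj y d

/-- the vertices beating all of `D` -/
def Nin (adj : V → V → Prop) (D : Finset V) : Set V := {y | ∀ d ∈ D, adj y d}

/-- `x` is a copy of the tournament on `{0,..,p-1}` in which, for `a < b`, the arc is `a → b` if
`H a b` and `b → a` otherwise -/
def Pat (adj : V → V → Prop) (H : ℕ → ℕ → Prop) (p : ℕ) (x : Fin p → V) : Prop :=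
  ∀ a b : Fin p, a < b → (H a b → adj (x a) (x b)) ∧ (¬ H a b → adj (x b) (x a))

end Tour

/-- a sequence of finite nonempty tournaments -/
structure TSeq where
  V : ℕ → Type
  ft : ∀ n, Fintype (V n)
  de : ∀ n, DecidableEq (V n)
  ne : ∀ n, Nonempty (V n)
  adj : ∀ n, V n → V n → Prop
  asymm : ∀ n u v, adj n u v → ¬ adj n v u
  total : ∀ n u v, u ≠ v → adj n u v ∨ adj n v u

attribute [instance] TSeq.ft TSeq.de TSeq.ne

/-- rich sequences of sets -/
def Rich (G : TSeq) (S : ∀ n, Set (G.V n)) : Prop :=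
  ∀ k : ℕ, ∀ᶠ n in UU, KRich (G.adj n) k (S n)

/-- pointwise inclusion of sequences of sets -/
def Sub (G : TSeq) (S T : ∀ n, Set (G.V n)) : Prop := ∀ n, S n ⊆ T n

/-- `u` is a kernel on the host `S` for bases of size at most `K` -/
def IsKer (G : TSeq) (S : ∀ n, Set (G.V n)) (K : ℕ)
    (u : ∀ n, Finset (G.V n) → G.V n → ℝ) : Prop :=
  (∀ n c, IsProb (u n c)) ∧
  ∀ᶠ n in UU, ∀ c : Finset (G.V n), c.card ≤ K →
    ∀ a, u n c a ≠ 0 → a ∈ S n ∧ a ∈ Nin (G.adj n) c

/-- homogeneity of `S` for the weights `μ`, with profile `f` -/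
def Homog (G : TSeq) (S : ∀ n, Set (G.V n)) (μ f : ∀ n, G.V n → ℝ) (δ : ℝ) : Prop :=
  ∀ g : ∀ n, G.V n → ℝ, (∀ n a, |g n a| ≤ 1) →
    ¬ Rich G (fun n => {s | s ∈ S n ∧ δ < ex (μ n) (fun a => g n a * (ind (G.adj n a s) - f n a))})

/-! ## Data of the level lemma -/

/-- finite product space, base map, finite family of coordinate sets -/
structure Base (G : TSeq) where
  I : Type
  fI : Fintype I
  dI : DecidableEq I
  X : ℕ → Type
  fX : ∀ n, Fintype (X n)
  q : ∀ n, I → X n → ℝ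
  hq : ∀ n i, IsProb (q n i)
  b : ∀ n, (I → X n) → Finset (G.V n)
  K : ℕ
  hb : ∀ n x, (b n x).card ≤ K
  C : Type
  fC : Fintype C
  neC : Nonempty C
  E : C → Finset I

attribute [instance] Base.fI Base.dI Base.fX Base.fC Base.neC

section At

variable {V : Type} [Fintype V] {I X C : Type} [Fintype I] [DecidableEq I] [Fintype X]

/-- the mean law of the kernel, given the coordinates of `x` in `E` -/
noncomputable def mean (q : I → X → ℝ) (b : (I → X) → Finset V) (u : Finset V → V → ℝ)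
    (E : Finset I) (x : I → X) : V → ℝ :=
  fun a => ex (prodW q) (fun y => u (b (mix E x y)) a)

/-- for most `x` the kernel hits every element of `R` with probability at least `g` -/
def HitAt (adj : V → V → Prop) (q : I → X → ℝ) (b : (I → X) → Finset V)
    (u : Finset V → V → ℝ) (g τ : ℝ) (R : Set V) : Prop :=
  1 - τ ≤ pr (prodW q) (fun x => ∀ s ∈ R, g ≤ pr (u (b x)) (fun a => adj a s ∨ a = s))

/-- uniform description of the hitter -/
def UDAt (adj : V → V → Prop) (q : I → X → ℝ) (b : (I → X) → Finset V)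
    (u : Finset V → V → ℝ) (E : C → Finset I) (γ τ ε : ℝ) (K' : ℕ) (R : Set V) : Prop :=
  ∃ (Z : C → (I → X) → Set V) (W : C → (I → X) → Finset V),
    (∀ c, DepOn (E c) (Z c)) ∧ (∀ c, DepOn (E c) (W c)) ∧ (∀ c x, (W c x).card ≤ K') ∧
    (∀ c x, ∀ s ∈ R, (∀ w ∈ W c x, adj s w) →
      pr (mean q b u (E c) x) (fun a => a ∈ Z c x ∧ ¬ adj a s) ≤ ε) ∧
    1 - τ ≤ pr (prodW q) (fun x => ∀ c, γ / 2 ≤ pr (u (b x)) (fun a => a ∈ Z c x))

/-- `X` is removable for the weights `μ` and the target set `R` -/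
def Removable (adj : V → V → Prop) (μ : V → ℝ) (R : Set V) (δ θ : ℝ) (k : ℕ)
    (Y : Finset V) : Prop :=
  δ ≤ pr μ (fun a => a ∈ Y) ∧
  (¬ KRich adj k {s | s ∈ R ∧ θ * pr μ (fun a => a ∈ Y) < pr μ (fun a => a ∈ Y ∧ ¬ adj a s)} ∨
   ¬ KRich adj k {s | s ∈ R ∧ θ * pr μ (fun a => a ∈ Y) < pr μ (fun a => a ∈ Y ∧ adj a s)})

/-- the region `N` contains a removable set -/
def BadAt (adj : V → V → Prop) (μ : V → ℝ) (N R : Set V) (δ θ : ℝ) (k : ℕ) : Prop :=
  ∃ Y : Finset V, (∀ a ∈ Y, a ∈ N) ∧ Removable adj μ R δ θ k Y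

end At

/-- no pair of rich subsets of `T` satisfies the first alternative of the level lemma -/
def NoFull (G : TSeq) (B : Base G) (T : ∀ n, Set (G.V n)) (γ τ : ℝ) : Prop :=
  ∀ (S T' : ∀ n, Set (G.V n)) (u : ∀ n, Finset (G.V n) → G.V n → ℝ),
    Rich G S → Rich G T' → Sub G S T → Sub G T' T → IsKer G S B.K u →
    ∀ᶠ n in UU, ¬ HitAt (G.adj n) (B.q n) (B.b n) (u n) (1 - γ) τ (T' n)

/-- no pair of rich subsets of `T` satisfies the second alternative of the level lemma -/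
def NoUD (G : TSeq) (B : Base G) (T : ∀ n, Set (G.V n)) (γ τ ε : ℝ) : Prop :=
  ∀ (S T' : ∀ n, Set (G.V n)) (u : ∀ n, Finset (G.V n) → G.V n → ℝ),
    Rich G S → Rich G T' → Sub G S T → Sub G T' T → IsKer G S B.K u →
    ∀ K' : ℕ, ∀ᶠ n in UU, ¬ UDAt (G.adj n) (B.q n) (B.b n) (u n) B.E γ τ ε K' (T' n)

/-- the embedding of `H` after `p` classes with `g` vertices in each class -/
def StateEx (G : TSeq) (T : ∀ n, Set (G.V n)) (H : ℕ → ℕ → Prop) (θ κ δ : ℝ) (p g : ℕ) : Prop :=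
  ∃ (ν : ∀ n, Fin p → Fin g → G.V n → ℝ) (S : (Fin p → Fin g → Bool) → ∀ n, Set (G.V n))
    (f : Fin p → Fin g → (Fin p → Fin g → Bool) → ∀ n, G.V n → ℝ),
    (∀ n i j, IsProb (ν n i j)) ∧ (∀ w, Rich G (S w)) ∧ (∀ w, Sub G (S w) T) ∧
    (∀ i j w n a, 0 ≤ f i j w n a ∧ f i j w n a ≤ 1) ∧
    (∀ i j w, Homog G (S w) (fun n => ν n i j) (f i j w) δ) ∧
    (∀ᶠ n in UU, ∀ i j w a, ν n i j a ≠ 0 →
      (w i j = true → θ ≤ f i j w n a) ∧ (w i j = false → f i j w n a ≤ 1 - θ)) ∧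
    (∀ᶠ n in UU, ∀ t : Fin p → Fin g,
      κ ≤ pr (prodW (fun i => ν n i (t i))) (Pat (G.adj n) H p))

/-! ## The main induction -/

/-- down-sets of `{0,..,j-1}` for the relation `R` -/
def DownSet (R : ℕ → ℕ → Prop) (j : ℕ) (C : Finset ℕ) : Prop :=
  (∀ k ∈ C, k < j) ∧ ∀ k l, l ∈ C → R k l → k ∈ C

open Classical in
/-- the principal down-set of `k` -/
noncomputable def dn (R : ℕ → ℕ → Prop) (k : ℕ) : Finset ℕ :=
  (range (k + 1)).filter (fun l => l = k ∨ R l k)

open Classical in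
/-- the strict principal down-set of `k` -/
noncomputable def dns (R : ℕ → ℕ → Prop) (k : ℕ) : Finset ℕ :=
  (range k).filter (fun l => R l k)

/-- the state of the main induction, at one index -/
structure MS {V : Type} [Fintype V] [DecidableEq V] (adj : V → V → Prop) (R : ℕ → ℕ → Prop)
    (j : ℕ) (η α : ℝ) (K : ℕ) (T : Set V) {I X : Type} [Fintype I] [DecidableEq I] [Fintype X]
    (q : I → X → ℝ) (v : ℕ → (I → X) → V) (Γ : Finset ℕ → Finset I)
    (W : Finset ℕ → (I → X) → Finset V) (A : (I → X) → Prop) : Prop where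
  mono : ∀ C C', DownSet R j C → DownSet R j C' → C ⊆ C' → Γ C ⊆ Γ C'
  card : ∀ C x, DownSet R j C → (W C x).card ≤ K
  depW : ∀ C, DownSet R j C → DepOn (Γ C) (W C)
  mem : ∀ C x, DownSet R j C → ∀ k ∈ C, v k x ∈ W C x
  pos : α ≤ pr (prodW q) A
  beats : ∀ x, A x → ∀ k l, l < j → R k l → adj (v l x) (v k x)
  req : pr (prodW q) (fun x => A x ∧ ∃ k l, k < l ∧ l < j ∧ ¬ R k l ∧ ¬ adj (v k x) (v l x)) ≤
    η * pr (prodW q) A
  tgt : ∀ C, DownSet R j C → ∀ s : (I → X) → V, DepOn (Γ C) s →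
    pr (prodW q) (fun x => A x ∧ s x ∈ T ∧ (∀ w ∈ W C x, adj (s x) w) ∧
      ∃ k, k < j ∧ k ∉ C ∧ ¬ adj (v k x) (s x)) ≤ η * pr (prodW q) A

/-- seeds: functions choosing a vertex for every base -/
abbrev Seed (V : Type) : Type := Finset V → V

/-- the state of the main induction -/
def MState (G : TSeq) (R : ℕ → ℕ → Prop) (j : ℕ) (η : ℝ) : Prop :=
  ∃ (I : Type) (_ : Fintype I) (_ : DecidableEq I) (Γ : Finset ℕ → Finset I) (K : ℕ) (α : ℝ)
    (T : ∀ n, Set (G.V n)) (q : ∀ n, I → Seed (G.V n) → ℝ)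
    (v : ∀ n, ℕ → (I → Seed (G.V n)) → G.V n)
    (W : ∀ n, Finset ℕ → (I → Seed (G.V n)) → Finset (G.V n))
    (A : ∀ n, (I → Seed (G.V n)) → Prop),
    0 < α ∧ Rich G T ∧ (∀ n i, IsProb (q n i)) ∧
    ∀ᶠ n in UU, MS (G.adj n) R j η α K (T n) (q n) (v n) Γ (W n) (A n)

end Pool.Agent.H71.DM
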