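import Pool.Agent.H19.DM.LAW
import Pool.Agent.H19.DM.LEV
import Pool.Agent.H39.DM.Hst
import Pool.Agent.H39.DM.Ref
import Pool.Agent.H39.DM.Vtx
import Pool.Agent.H49.DM.MAR
import Pool.Agent.H49.DM.OPT
import Pool.Agent.H49.DM.SNO
import Pool.Agent.H50.DM.BES
import Pool.Agent.H50.DM.BOX
import Pool.Agent.H50.DM.FIN
import Pool.Agent.H50.DM.HOM
import Pool.Agent.H50.DM.MM
import Pool.Agent.H50.DM.NM
import Pool.Agent.H50.DM.POS
import Pool.Agent.H50.DM.SHT
import Pool.Agent.H51.DM.PGU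
import Pool.Agent.H59.DM.PIG
import Pool.Agent.H59.DM.UNA
import Pool.Agent.H67.DM.BXP
import Pool.Agent.H67.DM.CTX
import Pool.Agent.H67.DM.TRP
import Pool.Agent.H67.DM.SUD
import Pool.Agent.H67.DM.STP
import Pool.Agent.H67.DM.SFL
import Pool.Agent.H14.DM.CNT
import Pool.Agent.H14.DM.REG
import Pool.Agent.H73.DM.BAT
import Pool.Agent.H73.DM.CLS
import Pool.Agent.H73.DM.ITR
import Pool.Agent.H87.DM.RR

set_option autoImplicit false

/-!
Assembly.
-/

namespace Pool.Agent.H71.DM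

/-- every tournament of large domination number contains a small subtournament of large
domination number -/
theorem final : FinalStmt := by
  have hRes : ResampleStmt := Pool.Agent.H19.DM.res
  have hPlg : PlugStmt := Pool.Agent.H19.DM.plg hRes
  have hNM : NearMaxStmt := Pool.Agent.H50.DM.nm
  have hPU : PigUStmt := Pool.Agent.H51.DM.pigU
  have hRD : RichDiffStmt := Pool.Agent.H51.DM.richDiff
  have hRR : RRStmt := Pool.Agent.H87.DM.rr hNM Pool.Agent.H51.DM.richNin Pool.Agent.H50.DM.mm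
  have hReg : RegionStmt := Pool.Agent.H14.DM.reg hNM hPU (Pool.Agent.H14.DM.udc hRes)
  have hHom : HomogStmt := Pool.Agent.H50.DM.hom hNM
  have hRef : RefineStmt := Pool.Agent.H39.DM.ref hHom hRD
  have hVtx : VertexStmt := Pool.Agent.H39.DM.vtx hRef Pool.Agent.H51.DM.diag
  have hItr : IterStmt := Pool.Agent.H73.DM.itr hVtx
  have hBat : BatchStmt := Pool.Agent.H73.DM.bat hRR hReg Pool.Agent.H59.DM.pig hPU hItr
  have hHst : HostStmt := Pool.Agent.H39.DM.hst Pool.Agent.H14.DM.cnt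
    (Pool.Agent.H50.DM.bes hRD) hRD
  have hCls : ClassStmt := Pool.Agent.H73.DM.cls hBat Pool.Agent.H50.DM.sht hHst
    Pool.Agent.H49.DM.sno Pool.Agent.H51.DM.patSnoc
  have hLev : LevelStmt := Pool.Agent.H19.DM.lev hCls
  have hLaw : LawStmt := Pool.Agent.H19.DM.law Pool.Agent.H49.DM.opt Pool.Agent.H49.DM.mar
  have hBxp : BoxPosStmt := Pool.Agent.H67.DM.bxp hLaw Pool.Agent.H51.DM.pow
  have hTrp : TransportStmt := Pool.Agent.H67.DM.trp hPlg
  have hSUD : StepUDStmt := Pool.Agent.H67.DM.sud Pool.Agent.H67.DM.ctx hTrp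
    (Pool.Agent.H19.DM.nhu hLaw hRes) Pool.Agent.H51.DM.pow hLaw
  have hSFL : StepFullStmt := Pool.Agent.H67.DM.sfl Pool.Agent.H67.DM.ctx hTrp
    (Pool.Agent.H19.DM.nhf hLaw hRes) hLaw hPlg
  have hStp : StepStmt := Pool.Agent.H67.DM.stp hLev Pool.Agent.H50.DM.box hBxp hSUD hSFL
    Pool.Agent.H67.DM.ctx hPU
  exact Pool.Agent.H50.DM.fin (Pool.Agent.H59.DM.una hStp) Pool.Agent.H50.DM.pos

end Pool.Agent.H71.DM
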