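import Pool.Agent.H71.DM.Defs

set_option autoImplicit false

/-!
Statements of the modules (each `XStmt` is proved in its own file).
-/

namespace Pool.Agent.H71.DM

open Finset

/-! ## A. Finite probability -/

/-- resampling the coordinates outside `E` -/
def ResampleStmt : Prop :=
  ∀ (I X : Type) [Fintype I] [DecidableEq I] [Fintype X] (q : I → X → ℝ), (∀ i, IsProb (q i)) →
    ∀ (E : Finset I) (f : (I → X) → ℝ),
      ex (prodW q) (fun x => ex (prodW q) (fun y => f (mix E x y))) = ex (prodW q) f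

/-- resampling a block of coordinates -/
def PlugStmt : Prop :=
  ∀ (I J X : Type) [Fintype I] [DecidableEq I] [Fintype J] [DecidableEq J] [Fintype X]
    (q : I → X → ℝ) (q' : J → X → ℝ), (∀ i, IsProb (q i)) → (∀ i, IsProb (q' i)) →
    ∀ e : I → J, Function.Injective e → (∀ i, q' (e i) = q i) → ∀ f : (J → X) → ℝ,
      ex (prodW q') (fun w => ex (prodW q) (fun x => f (plug e x w))) = ex (prodW q') f

/-- product weights over `Option J` -/
def OptionStmt : Prop :=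
  ∀ (J X : Type) [Fintype J] [DecidableEq J] [Fintype X] (q' : Option J → X → ℝ),
    (∀ i, IsProb (q' i)) → ∀ f : (Option J → X) → ℝ,
      ex (prodW q') f = ex (prodW (fun i => q' (some i)))
        (fun x => ex (q' none) (fun z => f (fun o => o.elim z x)))

/-- product weights over `Fin (p+1)` -/
def SnocStmt : Prop :=
  ∀ (X : Type) [Fintype X] (p : ℕ) (q : Fin (p + 1) → X → ℝ), (∀ i, IsProb (q i)) →
    ∀ f : (Fin (p + 1) → X) → ℝ,
      ex (prodW q) f = ex (q (Fin.last p))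
        (fun s => ex (prodW (fun i => q (Fin.castSucc i))) (fun x => f (Fin.snoc x s)))

/-- one marginal of product weights -/
def MarginalStmt : Prop :=
  ∀ (I X : Type) [Fintype I] [DecidableEq I] [Fintype X] (q : I → X → ℝ), (∀ i, IsProb (q i)) →
    ∀ (c : I) (f : X → ℝ), ex (prodW q) (fun x => f (x c)) = ex (q c) f

/-- independent copies -/
def PowStmt : Prop :=
  ∀ (R I X : Type) [Fintype R] [DecidableEq R] [Fintype I] [DecidableEq I] [Fintype X]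
    (q : I → X → ℝ), (∀ i, IsProb (q i)) → ∀ A : (I → X) → Prop,
      pr (prodW (fun ri : R × I => q ri.2)) (fun x => ∀ r, A (fun i => x (r, i))) =
        (pr (prodW q) A) ^ Fintype.card R

/-- product weights are probability weights -/
def ProdProbStmt : Prop :=
  ∀ (I X : Type) [Fintype I] [DecidableEq I] [Fintype X] (q : I → X → ℝ), (∀ i, IsProb (q i)) →
    IsProb (prodW q)

/-! ## B. Ultrafilter and rich sequences -/

/-- near maximisation along the ultrafilter -/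
def NearMaxStmt : Prop :=
  ∀ (α : Type) (A : α → Prop) (le : α → α → Prop), (∀ x, le x x) →
    (∀ x y z, le x y → le y z → le x z) → ∀ Ψ : ℕ → α → ℝ,
    (∀ x, A x → ∀ᶠ n in UU, 0 ≤ Ψ n x ∧ Ψ n x ≤ 1) → ∀ η : ℝ, 0 < η → ∀ x₀, A x₀ →
    ∃ y, A y ∧ le y x₀ ∧ ∀ z, A z → le z y → ∀ᶠ n in UU, Ψ n z ≤ Ψ n y + η

/-- finite pigeonhole along the ultrafilter -/
def PigUStmt : Prop :=
  ∀ (C : Type) [Finite C] (P : ℕ → C → Prop), (∀ᶠ n in UU, ∃ c, P n c) → ∃ c, ∀ᶠ n in UU, P n c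

/-- diagonalisation -/
def DiagStmt : Prop :=
  ∀ (X : ℕ → Type) [∀ n, Nonempty (X n)] (P : ∀ n, ℕ → X n → Prop),
    (∀ n k k' x, k ≤ k' → P n k' x → P n k x) → (∀ k, ∀ᶠ n in UU, ∃ x, P n k x) →
    ∃ x : ∀ n, X n, ∀ k, ∀ᶠ n in UU, P n k (x n)

/-- a finite union is rich only if one of its pieces is -/
def RichUnionStmt : Prop :=
  ∀ (G : TSeq) (Q : Type) [Fintype Q] (S : ∀ n, Set (G.V n)) (Z : Q → ∀ n, Set (G.V n)),
    Rich G S → (∀ᶠ n in UU, ∀ s ∈ S n, ∃ w, s ∈ Z w n) → ∃ w, Rich G (Z w)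

/-- removing finitely many non-rich sets from a rich set -/
def RichDiffStmt : Prop :=
  ∀ (G : TSeq) (Q : Type) [Fintype Q] (S : ∀ n, Set (G.V n)) (Z : Q → ∀ n, Set (G.V n)),
    Rich G S → (∀ w, ¬ Rich G (Z w)) → Rich G (fun n => {s | s ∈ S n ∧ ∀ w, s ∉ Z w n})

/-- the part of a rich set beating a set of bounded size -/
def RichNinStmt : Prop :=
  ∀ (G : TSeq) (S : ∀ n, Set (G.V n)) (K : ℕ) (D : ∀ n, Finset (G.V n)),
    Rich G S → (∀ᶠ n in UU, (D n).card ≤ K) → Rich G (fun n => S n ∩ Nin (G.adj n) (D n))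

/-! ## C. Kernels hitting all targets -/

/-- minimax for one pair of sets -/
def MinimaxStmt : Prop :=
  ∀ (V : Type) [Fintype V] [DecidableEq V] (adj : V → V → Prop),
    (∀ u v, u ≠ v → adj u v ∨ adj v u) →
    ∀ (A B : Set V), A.Nonempty → B.Nonempty → ∀ g : ℝ,
    (∃ u : V → ℝ, IsProb u ∧ (∀ a, u a ≠ 0 → a ∈ A) ∧
      ∀ s ∈ B, g ≤ pr u (fun a => adj a s ∨ a = s)) ∨
    (∃ u : V → ℝ, IsProb u ∧ (∀ a, u a ≠ 0 → a ∈ B) ∧
      ∀ s ∈ A, 1 - g ≤ pr u (fun a => adj a s ∨ a = s))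

/-- one kernel hitting all targets of finitely many rich sets -/
def RRStmt : Prop :=
  ∀ (G : TSeq) (B : Base G) (T : ∀ n, Set (G.V n)) (γ τ τ₁ : ℝ), 0 < τ → 0 < τ₁ →
    NoFull G B T γ τ →
    ∀ (S : ∀ n, Set (G.V n)), Rich G S → Sub G S T →
    ∀ (Q : Type) [Fintype Q] [Nonempty Q] (Sw : Q → ∀ n, Set (G.V n)),
      (∀ w, Rich G (Sw w)) → (∀ w, Sub G (Sw w) T) →
    ∃ (Rw : Q → ∀ n, Set (G.V n)) (u : ∀ n, Finset (G.V n) → G.V n → ℝ),
      (∀ w, Rich G (Rw w)) ∧ (∀ w, Sub G (Rw w) (Sw w)) ∧ IsKer G S B.K u ∧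
      ∀ᶠ n in UU, HitAt (G.adj n) (B.q n) (B.b n) (u n) γ τ₁ (⋃ w, Rw w n)

/-! ## D. Homogeneity -/

/-- existence of homogeneous subsets -/
def HomogStmt : Prop :=
  ∀ (G : TSeq) (R : ∀ n, Set (G.V n)) (μ : ∀ n, G.V n → ℝ) (δ : ℝ), Rich G R →
    (∀ n, IsProb (μ n)) → 0 < δ →
    ∃ (f : ∀ n, G.V n → ℝ) (S : ∀ n, Set (G.V n)), Rich G S ∧ Sub G S R ∧
      (∀ n a, 0 ≤ f n a ∧ f n a ≤ 1) ∧ Homog G S μ f δ

/-- the Bessel lemma -/
def BesselStmt : Prop :=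
  ∀ ε : ℝ, 0 < ε → ∃ δ : ℝ, 0 < δ ∧
    ∀ (G : TSeq) (S : ∀ n, Set (G.V n)) (μ f : ∀ n, G.V n → ℝ), (∀ n, IsProb (μ n)) →
      (∀ n a, 0 ≤ f n a ∧ f n a ≤ 1) → Homog G S μ f δ →
      ∀ (Om : ℕ → Type) [∀ n, Fintype (Om n)] (w : ∀ n, Om n → ℝ), (∀ n, IsProb (w n)) →
      ∀ F : ∀ n, Om n → G.V n → ℝ, (∀ n o a, |F n o a| ≤ 1) →
        ¬ Rich G (fun n => {s | s ∈ S n ∧ ε < ex (w n) (fun o =>
          (ex (μ n) (fun a => F n o a * (ind (G.adj n a s) - f n a))) ^ 2)})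

/-! ## E. Regions -/

/-- small remainders give the uniform description (one index) -/
def UDCritStmt : Prop :=
  ∀ (V : Type) [Fintype V] [DecidableEq V] (adj : V → V → Prop),
    (∀ u v, adj u v → ¬ adj v u) →
    ∀ (I X C : Type) [Fintype I] [DecidableEq I] [Fintype X] [Fintype C]
    (q : I → X → ℝ), (∀ i, IsProb (q i)) →
    ∀ (b : (I → X) → Finset V) (u : Finset V → V → ℝ), (∀ c, IsProb (u c)) →
    ∀ (E : C → Finset I) (γ τ ε β θ δ τ₁ : ℝ) (k m m' : ℕ) (R : Set V)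
      (F : C → (I → X) → Finset (Finset V)),
      0 < γ → 0 < θ → θ ≤ ε → 0 < δ → 1 ≤ δ * m → 1 ≤ θ * m' →
      τ₁ + Fintype.card C * ((2 * θ + β) * (2 / γ)) ≤ τ →
      KRich adj (k * m + m') R →
      (∀ c, DepOn (E c) (F c)) →
      (∀ c x, ((F c x : Finset (Finset V)) : Set (Finset V)).PairwiseDisjoint id) →
      (∀ c x, ∀ Y ∈ F c x, Removable adj (mean q b u (E c) x) R δ θ k Y) →
      HitAt adj q b u γ τ₁ R →
      (∀ c, ex (prodW q) (fun x => pr (mean q b u (E c) x) (fun a => ∀ Y ∈ F c x, a ∉ Y)) ≤ β) →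
      UDAt adj q b u E γ τ ε (k * m) R

/-- stable regions -/
def RegionStmt : Prop :=
  ∀ (G : TSeq) (B : Base G) (T : ∀ n, Set (G.V n)) (γ τ ε β θ τ₁ : ℝ),
    0 < γ → 0 < θ → θ ≤ ε → 0 < β → 0 < τ₁ →
    τ₁ + Fintype.card B.C * ((2 * θ + β) * (2 / γ)) ≤ τ →
    NoUD G B T γ τ ε →
    ∀ (S R : ∀ n, Set (G.V n)) (u : ∀ n, Finset (G.V n) → G.V n → ℝ),
      Rich G S → Sub G S T → Rich G R → Sub G R T → IsKer G S B.K u →
      (∀ᶠ n in UU, HitAt (G.adj n) (B.q n) (B.b n) (u n) γ τ₁ (R n)) →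
    ∀ δ η : ℝ, 0 < δ → 0 < η →
    ∃ (R' : ∀ n, Set (G.V n)) (c : B.C) (N : ∀ n, (B.I → B.X n) → Set (G.V n)),
      Rich G R' ∧ Sub G R' R ∧ (∀ n, DepOn (B.E c) (N n)) ∧
      (∀ᶠ n in UU, β ≤ ex (prodW (B.q n))
        (fun x => pr (mean (B.q n) (B.b n) (u n) (B.E c) x) (fun a => a ∈ N n x))) ∧
      ∀ R'' : ∀ n, Set (G.V n), Rich G R'' → Sub G R'' R' → ∀ k : ℕ, ∀ᶠ n in UU,
        pr (prodW (B.q n)) (fun x =>
          BadAt (G.adj n) (mean (B.q n) (B.b n) (u n) (B.E c) x) (N n x) (R'' n) δ θ k) ≤ η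

/-- pigeonhole for regions (one index) -/
def PigStmt : Prop :=
  ∀ (V : Type) [Fintype V] (I X Q : Type) [Fintype I] [DecidableEq I] [Fintype X]
    [Fintype Q] [DecidableEq Q] [Nonempty Q]
    (q : I → X → ℝ), (∀ i, IsProb (q i)) →
    ∀ (μ : (I → X) → V → ℝ), (∀ x, IsProb (μ x)) → ∀ (N : Q → (I → X) → Set V) (β : ℝ), 0 < β →
      (∀ w, β ≤ ex (prodW q) (fun x => pr (μ x) (fun a => a ∈ N w x))) →
      ∃ W : Finset Q, β / 2 * Fintype.card Q ≤ W.card ∧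
        β / 4 * (1 / 2) ^ Fintype.card Q ≤
          pr (prodW q) (fun x => β / 4 * (1 / 2) ^ Fintype.card Q ≤
            pr (μ x) (fun a => ∀ w ∈ W, a ∈ N w x))

/-! ## F. New vertices -/

/-- one label for one target -/
def RefineStmt : Prop :=
  ∀ (G : TSeq) (μ : ∀ n, G.V n → ℝ) (R : ∀ n, Set (G.V n)) (Y : ∀ n, Finset (G.V n))
    (m θ δ : ℝ) (b : Bool), (∀ n, IsProb (μ n)) → 0 < m → 0 < θ → θ ≤ 1 → 0 < δ →
    (∀ᶠ n in UU, m ≤ pr (μ n) (fun a => a ∈ Y n)) →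
    Rich G (fun n => {s | s ∈ R n ∧ θ * pr (μ n) (fun a => a ∈ Y n) <
      pr (μ n) (fun a => a ∈ Y n ∧ (b = true → G.adj n a s) ∧ (b = false → ¬ G.adj n a s))}) →
    ∃ (R' : ∀ n, Set (G.V n)) (f : ∀ n, G.V n → ℝ) (Y' : ∀ n, Finset (G.V n)),
      Rich G R' ∧ Sub G R' R ∧ (∀ n a, 0 ≤ f n a ∧ f n a ≤ 1) ∧ Homog G R' μ f δ ∧
      (∀ n, Y' n ⊆ Y n) ∧
      (∀ᶠ n in UU, θ / 2 * pr (μ n) (fun a => a ∈ Y n) ≤ pr (μ n) (fun a => a ∈ Y' n)) ∧
      (∀ᶠ n in UU, ∀ a ∈ Y' n, (b = true → θ / 4 ≤ f n a) ∧ (b = false → f n a ≤ 1 - θ / 4))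

/-- one new vertex, all labels for all targets -/
def VertexStmt : Prop :=
  ∀ (G : TSeq) (B : Base G) (S : ∀ n, Set (G.V n)) (u : ∀ n, Finset (G.V n) → G.V n → ℝ)
    (E : Finset B.I) (Y : Type) [Fintype Y] (R : Y → ∀ n, Set (G.V n))
    (N : Y → ∀ n, (B.I → B.X n) → Set (G.V n)) (κ δ δ' η θ : ℝ),
    Rich G S → IsKer G S B.K u → (∀ y, Rich G (R y)) →
    0 < κ → 0 < δ → 0 < δ' → 0 < η → 0 < θ → θ ≤ 1 →
    Fintype.card Y * η < κ → δ ≤ κ * (θ / 2) ^ (2 * Fintype.card Y) →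
    (∀ᶠ n in UU, κ ≤ pr (prodW (B.q n)) (fun x =>
      κ ≤ pr (mean (B.q n) (B.b n) (u n) E x) (fun a => ∀ y, a ∈ N y n x))) →
    (∀ y, ∀ k : ℕ, ∀ᶠ n in UU, pr (prodW (B.q n)) (fun x =>
      BadAt (G.adj n) (mean (B.q n) (B.b n) (u n) E x) (N y n x) (R y n) δ θ k) ≤ η) →
    ∃ (ν : ∀ n, G.V n → ℝ) (R' : Y → Bool → ∀ n, Set (G.V n)) (f : Y → Bool → ∀ n, G.V n → ℝ),
      (∀ n, IsProb (ν n)) ∧ (∀ᶠ n in UU, ∀ a, ν n a ≠ 0 → a ∈ S n) ∧
      (∀ y z, Rich G (R' y z)) ∧ (∀ y z, Sub G (R' y z) (R y)) ∧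
      (∀ y z n a, 0 ≤ f y z n a ∧ f y z n a ≤ 1) ∧
      (∀ y z, Homog G (R' y z) ν (f y z) δ') ∧
      (∀ᶠ n in UU, ∀ y a, ν n a ≠ 0 → θ / 4 ≤ f y true n a ∧ f y false n a ≤ 1 - θ / 4)

/-- `M` new vertices for given stable regions -/
def IterStmt : Prop :=
  ∀ (G : TSeq) (B : Base G) (S : ∀ n, Set (G.V n)) (u : ∀ n, Finset (G.V n) → G.V n → ℝ)
    (E : Finset B.I) (Y : Type) [Fintype Y] (R : Y → ∀ n, Set (G.V n))
    (N : Y → ∀ n, (B.I → B.X n) → Set (G.V n)) (κ δ δ' η θ : ℝ) (M : ℕ),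
    Rich G S → IsKer G S B.K u → (∀ y, Rich G (R y)) →
    0 < κ → 0 < δ → 0 < δ' → 0 < η → 0 < θ → θ ≤ 1 →
    Fintype.card Y * 2 ^ M * η < κ →
    δ ≤ κ * (θ / 2) ^ (2 * (Fintype.card Y * 2 ^ M)) →
    (∀ᶠ n in UU, κ ≤ pr (prodW (B.q n)) (fun x =>
      κ ≤ pr (mean (B.q n) (B.b n) (u n) E x) (fun a => ∀ y, a ∈ N y n x))) →
    (∀ y, ∀ R'' : ∀ n, Set (G.V n), Rich G R'' → Sub G R'' (R y) → ∀ k : ℕ, ∀ᶠ n in UU,
      pr (prodW (B.q n)) (fun x =>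
        BadAt (G.adj n) (mean (B.q n) (B.b n) (u n) E x) (N y n x) (R'' n) δ θ k) ≤ η) →
    ∃ (ν : ∀ n, Fin M → G.V n → ℝ) (R' : Y → (Fin M → Bool) → ∀ n, Set (G.V n))
      (f : Fin M → Y → (Fin M → Bool) → ∀ n, G.V n → ℝ),
      (∀ n i, IsProb (ν n i)) ∧ (∀ᶠ n in UU, ∀ i a, ν n i a ≠ 0 → a ∈ S n) ∧
      (∀ y z, Rich G (R' y z)) ∧ (∀ y z, Sub G (R' y z) (R y)) ∧
      (∀ i y z n a, 0 ≤ f i y z n a ∧ f i y z n a ≤ 1) ∧
      (∀ i y z, Homog G (R' y z) (fun n => ν n i) (f i y z) δ') ∧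
      (∀ᶠ n in UU, ∀ i y z a, ν n i a ≠ 0 →
        (z i = true → θ / 4 ≤ f i y z n a) ∧ (z i = false → f i y z n a ≤ 1 - θ / 4))

/-- a batch of `M` new vertices -/
def BatchStmt : Prop :=
  ∀ (G : TSeq) (B : Base G) (T : ∀ n, Set (G.V n)) (γ τ ε : ℝ), 0 < γ → 0 < τ → 0 < ε →
    NoFull G B T γ τ → NoUD G B T γ τ ε →
    ∃ ϱ θ : ℝ, 0 < ϱ ∧ 0 < θ ∧ θ ≤ 1 ∧
    ∀ (S : ∀ n, Set (G.V n)), Rich G S → Sub G S T →
    ∀ (Q : Type) [Fintype Q] [DecidableEq Q] [Nonempty Q] (Sw : Q → ∀ n, Set (G.V n)),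
      (∀ w, Rich G (Sw w)) → (∀ w, Sub G (Sw w) T) → ∀ (M : ℕ) (δ' : ℝ), 0 < δ' →
    ∃ (W : Finset Q) (ν : ∀ n, Fin M → G.V n → ℝ) (R : Q → (Fin M → Bool) → ∀ n, Set (G.V n))
      (f : Fin M → Q → (Fin M → Bool) → ∀ n, G.V n → ℝ),
      ϱ * Fintype.card Q ≤ W.card ∧ (∀ n i, IsProb (ν n i)) ∧
      (∀ᶠ n in UU, ∀ i a, ν n i a ≠ 0 → a ∈ S n) ∧
      (∀ w ∈ W, ∀ z, Rich G (R w z)) ∧ (∀ w z, Sub G (R w z) (Sw w)) ∧
      (∀ i w z n a, 0 ≤ f i w z n a ∧ f i w z n a ≤ 1) ∧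
      (∀ i, ∀ w ∈ W, ∀ z, Homog G (R w z) (fun n => ν n i) (f i w z) δ') ∧
      (∀ᶠ n in UU, ∀ i, ∀ w ∈ W, ∀ z a, ν n i a ≠ 0 →
        (z i = true → θ ≤ f i w z n a) ∧ (z i = false → f i w z n a ≤ 1 - θ))

/-- shattering with many elements in every class -/
def ShatterStmt : Prop :=
  ∀ (p g : ℕ) (ϱ : ℝ), 0 < ϱ → ∃ s : ℕ, ∀ W : Finset (Fin p → Fin s → Bool),
    ϱ * Fintype.card (Fin p → Fin s → Bool) ≤ W.card →
    ∃ e : Fin p → Fin g → Fin s, ∀ z : Fin p → Fin g → Bool,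
      ∃ w ∈ W, ∀ i j, w i (e i j) = z i j

/-- counting patterns (one index) -/
def CountStmt : Prop :=
  ∀ (V : Type) [Fintype V] [DecidableEq V] (adj : V → V → Prop),
    (∀ u v, adj u v → ¬ adj v u) → (∀ u v, u ≠ v → adj u v ∨ adj v u) →
    ∀ (H : ℕ → ℕ → Prop) (p : ℕ) (ν f : Fin p → V → ℝ) (θ ε : ℝ) (s : V),
      (∀ i, IsProb (ν i)) → (∀ i a, 0 ≤ f i a ∧ f i a ≤ 1) → 0 ≤ θ → θ ≤ 1 → 0 ≤ ε →
      (∀ i a, ν i a ≠ 0 → (H i p → θ ≤ f i a) ∧ (¬ H i p → f i a ≤ 1 - θ)) →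
      (∀ i, ν i s ≤ ε) →
      (∀ i, ex (prodW ν) (fun x => (ex (ν i) (fun a =>
        ind (Pat adj H p (Function.update x i a)) * (ind (adj a s) - f i a))) ^ 2) ≤ ε ^ 2) →
      θ ^ p * pr (prodW ν) (Pat adj H p) - 2 * p * ε ≤
        pr (prodW ν) (fun x => Pat adj H p x ∧
          ∀ i : Fin p, (H i p → adj (x i) s) ∧ (¬ H i p → adj s (x i)))

/-- the host for the next class -/
def HostStmt : Prop :=
  ∀ (p : ℕ) (θ κ : ℝ), 0 < θ → θ ≤ 1 → 0 < κ → ∃ δ : ℝ, 0 < δ ∧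
    ∀ (G : TSeq) (H : ℕ → ℕ → Prop) (g : ℕ) (ν : ∀ n, Fin p → Fin g → G.V n → ℝ)
      (S : ∀ n, Set (G.V n)) (f : Fin p → Fin g → ∀ n, G.V n → ℝ),
      (∀ n i j, IsProb (ν n i j)) → Rich G S →
      (∀ i j n a, 0 ≤ f i j n a ∧ f i j n a ≤ 1) →
      (∀ i j, Homog G S (fun n => ν n i j) (f i j) δ) →
      (∀ᶠ n in UU, ∀ i j a, ν n i j a ≠ 0 →
        (H (i : ℕ) p → θ ≤ f i j n a) ∧ (¬ H (i : ℕ) p → f i j n a ≤ 1 - θ)) →
      (∀ᶠ n in UU, ∀ t : Fin p → Fin g,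
        κ ≤ pr (prodW (fun i => ν n i (t i))) (Pat (G.adj n) H p)) →
      Rich G (fun n => {s | s ∈ S n ∧ ∀ t : Fin p → Fin g,
        θ ^ p * κ / 2 ≤ pr (prodW (fun i => ν n i (t i))) (fun x => Pat (G.adj n) H p x ∧
          ∀ i : Fin p, (H i p → G.adj n (x i) s) ∧ (¬ H i p → G.adj n s (x i)))})

/-- patterns on `p+1` vertices -/
def PatSnocStmt : Prop :=
  ∀ (V : Type) (adj : V → V → Prop) (H : ℕ → ℕ → Prop) (p : ℕ) (x : Fin p → V) (s : V),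
    Pat adj H (p + 1) (Fin.snoc x s : Fin (p + 1) → V) ↔ Pat adj H p x ∧
      ∀ i : Fin p, (H i p → adj (x i) s) ∧ (¬ H i p → adj s (x i))

/-- one more class -/
def ClassStmt : Prop :=
  ∀ (G : TSeq) (B : Base G) (T : ∀ n, Set (G.V n)) (γ τ ε : ℝ), 0 < γ → 0 < τ → 0 < ε →
    NoFull G B T γ τ → NoUD G B T γ τ ε → ∃ θ : ℝ, 0 < θ ∧ θ ≤ 1 ∧
    ∀ (H : ℕ → ℕ → Prop) (p : ℕ) (κ : ℝ), 0 < κ →
      (∀ δ : ℝ, 0 < δ → ∀ g : ℕ, StateEx G T H θ κ δ p g) →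
      ∃ κ' : ℝ, 0 < κ' ∧ ∀ δ : ℝ, 0 < δ → ∀ g : ℕ, StateEx G T H θ κ' δ (p + 1) g

/-- the level lemma -/
def LevelStmt : Prop :=
  ∀ (G : TSeq) (B : Base G) (T : ∀ n, Set (G.V n)) (H : ℕ → ℕ → Prop) (h : ℕ) (γ τ ε : ℝ),
    Rich G T → 0 < γ → 0 < τ → 0 < ε →
    (∀ᶠ n in UU, ∀ x : Fin h → G.V n, ¬ Pat (G.adj n) H h x) →
    ∃ (S T' : ∀ n, Set (G.V n)) (u : ∀ n, Finset (G.V n) → G.V n → ℝ),
      Rich G S ∧ Rich G T' ∧ Sub G S T ∧ Sub G T' T ∧ IsKer G S B.K u ∧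
      ((∀ᶠ n in UU, HitAt (G.adj n) (B.q n) (B.b n) (u n) (1 - γ) τ (T' n)) ∨
       ∃ K' : ℕ, ∀ᶠ n in UU,
         UDAt (G.adj n) (B.q n) (B.b n) (u n) B.E γ τ ε K' (T' n))

/-! ## G. The main induction -/

/-- the box theorem -/
def BoxStmt : Prop :=
  ∀ (j : ℕ) (ρ : ℝ), 0 < ρ → ∃ L : ℕ, 1 ≤ L ∧ ∀ D : Finset (Fin j → Fin L),
    ρ * Fintype.card (Fin j → Fin L) ≤ D.card →
    ∃ l h : Fin j → Fin L, (∀ i, l i < h i) ∧
      ∀ m : Fin j → Fin L, (∀ i, m i = l i ∨ m i = h i) → m ∈ D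

section Step

variable {V : Type} [Fintype V] [DecidableEq V] {I : Type} [Fintype I] [DecidableEq I]

/-- the copy `r` of the old configuration -/
def cpy {j L : ℕ} {I X : Type} (x : (Fin j → Fin L) × I → X) (r : Fin j → Fin L) : I → X :=
  fun i => x (r, i)

open Classical in
/-- the down-set of copy `r` known in the context `m` -/
noncomputable def ctx (R : ℕ → ℕ → Prop) {j L : ℕ} (r m : Fin j → Fin L) : Finset ℕ :=
  (range j).filter (fun k => ∀ i : Fin j, (i : ℕ) ∈ dn R k → r i ≤ m i)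

/-- the coordinates known in the context `m` -/
noncomputable def ctxE (R : ℕ → ℕ → Prop) {j L : ℕ} (Γ : Finset ℕ → Finset I) (m : Fin j → Fin L) :
    Finset ((Fin j → Fin L) × I) :=
  univ.filter (fun ri => ri.2 ∈ Γ (ctx R ri.1 m))

/-- the base of the new vertex -/
noncomputable def nbase (R : ℕ → ℕ → Prop) {j L : ℕ} {X : Type}
    (W : Finset ℕ → (I → X) → Finset V) (x : (Fin j → Fin L) × I → X) : Finset V :=
  univ.biUnion (fun r : Fin j → Fin L => W (dns R j) (cpy x r))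

/-- the corner of the box `(l,h)` belonging to `C` -/
def corner {j L : ℕ} (l h : Fin j → Fin L) (C : Finset ℕ) : Fin j → Fin L :=
  fun i => if (i : ℕ) ∈ C then h i else l i

/-- the new weights: a seed for the new vertex -/
noncomputable def nq {j L : ℕ} (q : I → Seed V → ℝ) (u : Finset V → V → ℝ) :
    Option ((Fin j → Fin L) × I) → Seed V → ℝ
  | none => prodW u
  | some ri => q ri.2

/-- the old coordinates -/
def old {J X : Type} (w : Option J → X) : J → X := fun i => w (some i)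

/-- the new vertex -/
noncomputable def nvx (R : ℕ → ℕ → Prop) {j L : ℕ}
    (W : Finset ℕ → (I → Seed V) → Finset V)
    (w : Option ((Fin j → Fin L) × I) → Seed V) : V :=
  w none (nbase R W (old w))

/-- the new vertices -/
noncomputable def nv (R : ℕ → ℕ → Prop) {j L : ℕ} (h : Fin j → Fin L)
    (v : ℕ → (I → Seed V) → V) (W : Finset ℕ → (I → Seed V) → Finset V)
    (k : ℕ) (w : Option ((Fin j → Fin L) × I) → Seed V) : V :=
  if k < j then v k (cpy (old w) h) else nvx R W w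

/-- all coordinates outside the copy `h`, and those of `C` in the copy `h` -/
def outG {j L : ℕ} (h : Fin j → Fin L) (Γ : Finset ℕ → Finset I) (C : Finset ℕ) :
    Finset (Option ((Fin j → Fin L) × I)) :=
  insert none ((univ.filter (fun ri : (Fin j → Fin L) × I => ri.1 ≠ h ∨ ri.2 ∈ Γ C)).map
    Function.Embedding.some)

/-- the coordinates for down-sets containing the new element -/
def topG {j L : ℕ} (h : Fin j → Fin L) (Γ : Finset ℕ → Finset I) (C : Finset ℕ) :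
    Finset (Option ((Fin j → Fin L) × I)) := outG h Γ (C.erase j)

/-- the coordinates of `C` in the copy `h` -/
def blk {j L : ℕ} (h : Fin j → Fin L) (Γ : Finset ℕ → Finset I) (C : Finset ℕ) :
    Finset ((Fin j → Fin L) × I) :=
  univ.filter (fun ri : (Fin j → Fin L) × I => ri.1 = h ∧ ri.2 ∈ Γ C)

/-- dependence sets in the case of the uniform description -/
noncomputable def nG (R : ℕ → ℕ → Prop) {j L : ℕ} (l h : Fin j → Fin L) (Γ : Finset ℕ → Finset I)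
    (C : Finset ℕ) : Finset (Option ((Fin j → Fin L) × I)) :=
  if j ∈ C then topG h Γ C else (ctxE R Γ (corner l h C)).map Function.Embedding.some

/-- known vertices in the case of the uniform description -/
noncomputable def nW (R : ℕ → ℕ → Prop) {j L : ℕ} (l h : Fin j → Fin L)
    (W : Finset ℕ → (I → Seed V) → Finset V)
    (WE : (Fin j → Fin L) → ((Fin j → Fin L) × I → Seed V) → Finset V)
    (C : Finset ℕ) (w : Option ((Fin j → Fin L) × I) → Seed V) : Finset V :=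
  if j ∈ C then insert (nvx R W w) (W (C.erase j) (cpy (old w) h))
  else W C (cpy (old w) h) ∪ WE (corner l h C) (old w)

/-- the new event in the case of the uniform description -/
def nA (adj : V → V → Prop) (R : ℕ → ℕ → Prop) {j L : ℕ} (l h : Fin j → Fin L)
    (W : Finset ℕ → (I → Seed V) → Finset V) (A : (I → Seed V) → Prop) (S : Set V)
    (Z : (Fin j → Fin L) → ((Fin j → Fin L) × I → Seed V) → Set V)
    (w : Option ((Fin j → Fin L) × I) → Seed V) : Prop :=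
  (∀ r, A (cpy (old w) r)) ∧ (nvx R W w ∈ S ∧ nvx R W w ∈ Nin adj (nbase R W (old w))) ∧
    ∀ C, DownSet R j C → nvx R W w ∈ Z (corner l h C) (old w)

/-- dependence sets in the full case -/
def fG {j L : ℕ} (h : Fin j → Fin L) (Γ : Finset ℕ → Finset I)
    (C : Finset ℕ) : Finset (Option ((Fin j → Fin L) × I)) :=
  if j ∈ C then topG h Γ C else (blk h Γ C).map Function.Embedding.some

open Classical in
/-- the atoms of the mean law -/
noncomputable def atoms (R : ℕ → ℕ → Prop) {j L : ℕ} (q : I → Seed V → ℝ)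
    (u : Finset V → V → ℝ) (ζ : ℝ) (W : Finset ℕ → (I → Seed V) → Finset V)
    (E : Finset ((Fin j → Fin L) × I)) (x : (Fin j → Fin L) × I → Seed V) : Finset V :=
  univ.filter (fun a => ζ ≤ mean (fun ri : (Fin j → Fin L) × I => q ri.2) (nbase R W) u E x a)

/-- known vertices in the full case: the atoms of the mean law are added -/
noncomputable def fW (R : ℕ → ℕ → Prop) {j L : ℕ} (h : Fin j → Fin L)
    (q : I → Seed V → ℝ) (u : Finset V → V → ℝ) (Γ : Finset ℕ → Finset I) (ζ : ℝ)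
    (W : Finset ℕ → (I → Seed V) → Finset V)
    (C : Finset ℕ) (w : Option ((Fin j → Fin L) × I) → Seed V) : Finset V :=
  if j ∈ C then insert (nvx R W w) (W (C.erase j) (cpy (old w) h))
  else W C (cpy (old w) h) ∪ atoms R q u ζ W (blk h Γ C) (old w)

/-- the new event in the full case -/
def fA (adj : V → V → Prop) (R : ℕ → ℕ → Prop) {j L : ℕ} (h : Fin j → Fin L)
    (W : Finset ℕ → (I → Seed V) → Finset V) (A : (I → Seed V) → Prop) (S : Set V)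
    (w : Option ((Fin j → Fin L) × I) → Seed V) : Prop :=
  A (cpy (old w) h) ∧ nvx R W w ∈ S ∧ nvx R W w ∈ Nin adj (nbase R W (old w))

end Step

/-- combinatorics of contexts -/
def CtxStmt : Prop :=
  ∀ (R : ℕ → ℕ → Prop) (j L : ℕ), (∀ k l, R k l → k < l) → (∀ k l m, R k l → R l m → R k m) →
    (∀ r m : Fin j → Fin L, DownSet R j (ctx R r m)) ∧
    (∀ (l h : Fin j → Fin L) (C : Finset ℕ), (∀ i, l i < h i) → DownSet R j C →
      ctx R h (corner l h C) = C) ∧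
    (∀ r m m' : Fin j → Fin L, (∀ i, m i ≤ m' i) → ctx R r m ⊆ ctx R r m') ∧
    (∀ (l h : Fin j → Fin L) (C C' : Finset ℕ), (∀ i, l i < h i) → C ⊆ C' →
      ∀ i, corner l h C i ≤ corner l h C' i) ∧
    DownSet R j (dns R j) ∧
    (∀ C, DownSet R (j + 1) C → j ∉ C → DownSet R j C) ∧
    (∀ C, DownSet R (j + 1) C → j ∈ C → DownSet R j (C.erase j) ∧ dns R j ⊆ C.erase j)

/-- the joint law of the old copies and the new vertex -/
def LawStmt : Prop :=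
  ∀ (V : Type) [Fintype V] [DecidableEq V] (R : ℕ → ℕ → Prop) (j L : ℕ)
    (I : Type) [Fintype I] [DecidableEq I] (q : I → Seed V → ℝ), (∀ i, IsProb (q i)) →
    ∀ (W : Finset ℕ → (I → Seed V) → Finset V) (u : Finset V → V → ℝ), (∀ c, IsProb (u c)) →
    ∀ g : ((Fin j → Fin L) × I → Seed V) → V → ℝ,
      ex (prodW (nq (j := j) (L := L) q u)) (fun w => g (old w) (nvx R W w)) =
        ex (prodW (fun ri : (Fin j → Fin L) × I => q ri.2))
          (fun x => ex (u (nbase R W x)) (g x))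

/-- transport of the old estimates to one copy -/
def TransportStmt : Prop :=
  ∀ (V : Type) [Fintype V] [DecidableEq V] (adj : V → V → Prop) (R : ℕ → ℕ → Prop) (j L : ℕ)
    (I : Type) [Fintype I] [DecidableEq I] (q : I → Seed V → ℝ) (η α : ℝ) (K : ℕ) (T : Set V)
    (v : ℕ → (I → Seed V) → V) (Γ : Finset ℕ → Finset I)
    (W : Finset ℕ → (I → Seed V) → Finset V) (A : (I → Seed V) → Prop),
    (∀ i, IsProb (q i)) → MS adj R j η α K T q v Γ W A → 0 ≤ η →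
    ∀ (u : Finset V → V → ℝ) (h : Fin j → Fin L), (∀ c, IsProb (u c)) →
    ∀ Gd : (Option ((Fin j → Fin L) × I) → Seed V) → Prop,
      DepOn (outG h (fun _ => (∅ : Finset I)) ∅) Gd →
      (∀ C, DownSet R j C → ∀ s : (Option ((Fin j → Fin L) × I) → Seed V) → V,
        DepOn (outG h Γ C) s →
        pr (prodW (nq q u)) (fun w => A (cpy (old w) h) ∧ Gd w ∧ s w ∈ T ∧
          (∀ y ∈ W C (cpy (old w) h), adj (s w) y) ∧
          ∃ k, k < j ∧ k ∉ C ∧ ¬ adj (v k (cpy (old w) h)) (s w)) ≤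
        η * pr (prodW (nq q u)) (fun w => A (cpy (old w) h) ∧ Gd w)) ∧
      pr (prodW (nq q u)) (fun w => A (cpy (old w) h) ∧ Gd w ∧
          ∃ k l, k < l ∧ l < j ∧ ¬ R k l ∧
            ¬ adj (v k (cpy (old w) h)) (v l (cpy (old w) h))) ≤
        η * pr (prodW (nq q u)) (fun w => A (cpy (old w) h) ∧ Gd w)

/-- the new vertex hits the targets: uniform description -/
def NewHitUDStmt : Prop :=
  ∀ (V : Type) [Fintype V] [DecidableEq V] (adj : V → V → Prop) (R : ℕ → ℕ → Prop) (j L : ℕ)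
    (I : Type) [Fintype I] [DecidableEq I] (q : I → Seed V → ℝ)
    (W : Finset ℕ → (I → Seed V) → Finset V) (u : Finset V → V → ℝ) (T' : Set V) (ε : ℝ)
    (E : Finset ((Fin j → Fin L) × I)) (Z : ((Fin j → Fin L) × I → Seed V) → Set V)
    (WE : ((Fin j → Fin L) × I → Seed V) → Finset V)
    (s : (Option ((Fin j → Fin L) × I) → Seed V) → V),
    (∀ i, IsProb (q i)) → (∀ c, IsProb (u c)) → 0 ≤ ε → DepOn E Z → DepOn E WE →
    (∀ x, ∀ s ∈ T', (∀ w ∈ WE x, adj s w) →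
      pr (mean (fun ri : (Fin j → Fin L) × I => q ri.2) (nbase R W) u E x)
        (fun a => a ∈ Z x ∧ ¬ adj a s) ≤ ε) →
    DepOn (E.map Function.Embedding.some) s →
    pr (prodW (nq q u)) (fun w => nvx R W w ∈ Z (old w) ∧ s w ∈ T' ∧
      (∀ y ∈ WE (old w), adj (s w) y) ∧ ¬ adj (nvx R W w) (s w)) ≤ ε

/-- the new vertex hits the targets: full case -/
def NewHitFullStmt : Prop :=
  ∀ (V : Type) [Fintype V] [DecidableEq V] (adj : V → V → Prop) (R : ℕ → ℕ → Prop) (j L : ℕ)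
    (I : Type) [Fintype I] [DecidableEq I] (q : I → Seed V → ℝ)
    (W : Finset ℕ → (I → Seed V) → Finset V) (A : (I → Seed V) → Prop)
    (u : Finset V → V → ℝ) (T' : Set V) (γ τ ζ : ℝ) (h : Fin j → Fin L)
    (E : Finset ((Fin j → Fin L) × I)) (s : (Option ((Fin j → Fin L) × I) → Seed V) → V),
    (∀ u v, adj u v → ¬ adj v u) →
    (∀ i, IsProb (q i)) → (∀ c, IsProb (u c)) → 0 ≤ γ → 0 ≤ τ → 0 < ζ →
    HitAt adj (fun ri : (Fin j → Fin L) × I => q ri.2) (nbase R W) u (1 - γ) τ T' →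
    DepOn (E.map Function.Embedding.some) s →
    pr (prodW (nq q u)) (fun w => A (cpy (old w) h) ∧ s w ∈ T' ∧
      (∀ y ∈ atoms R q u ζ W E (old w), adj (s w) y) ∧ ¬ adj (nvx R W w) (s w)) ≤
    γ * pr (prodW q) A + τ + ζ

/-- a box of good contexts (one index) -/
def BoxPosStmt : Prop :=
  ∀ (V : Type) [Fintype V] [DecidableEq V] (adj : V → V → Prop) (R : ℕ → ℕ → Prop) (j L : ℕ)
    (I : Type) [Fintype I] [DecidableEq I] (q : I → Seed V → ℝ), (∀ i, IsProb (q i)) →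
    ∀ (W : Finset ℕ → (I → Seed V) → Finset V) (A : (I → Seed V) → Prop) (S : Set V)
      (u : Finset V → V → ℝ) (γ α : ℝ)
      (Z : (Fin j → Fin L) → ((Fin j → Fin L) × I → Seed V) → Set V),
      (∀ c, IsProb (u c)) → 0 < γ → 0 < α → 1 ≤ L →
      (∀ x : (Fin j → Fin L) × I → Seed V, ∀ a, u (nbase R W x) a ≠ 0 →
        a ∈ S ∧ a ∈ Nin adj (nbase R W x)) →
      (∀ D : Finset (Fin j → Fin L), γ / 8 * Fintype.card (Fin j → Fin L) ≤ D.card →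
        ∃ l h : Fin j → Fin L, (∀ i, l i < h i) ∧
          ∀ m : Fin j → Fin L, (∀ i, m i = l i ∨ m i = h i) → m ∈ D) →
      α ≤ pr (prodW q) A →
      1 - α ^ Fintype.card (Fin j → Fin L) / 2 ≤
        pr (prodW (fun ri : (Fin j → Fin L) × I => q ri.2)) (fun x => ∀ m,
          γ / 2 ≤ pr (u (nbase R W x)) (fun a => a ∈ Z m x)) →
      ∃ l h : Fin j → Fin L, (∀ i, l i < h i) ∧
        γ / 8 / (Fintype.card (Fin j → Fin L)) ^ 2 *
          (pr (prodW q) A) ^ Fintype.card (Fin j → Fin L) ≤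
          pr (prodW (nq q u)) (nA adj R l h W A S Z)

/-- the step of the main induction in the case of the uniform description (one index) -/
def StepUDStmt : Prop :=
  ∀ (V : Type) [Fintype V] [DecidableEq V] (adj : V → V → Prop) (R : ℕ → ℕ → Prop) (j L : ℕ)
    (I : Type) [Fintype I] [DecidableEq I] (q : I → Seed V → ℝ) (η α : ℝ) (K : ℕ) (T : Set V)
    (v : ℕ → (I → Seed V) → V) (Γ : Finset ℕ → Finset I)
    (W : Finset ℕ → (I → Seed V) → Finset V) (A : (I → Seed V) → Prop),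
    (∀ u v, adj u v → ¬ adj v u) → (∀ k l, R k l → k < l) → (∀ k l m, R k l → R l m → R k m) →
    (∀ i, IsProb (q i)) → MS adj R j η α K T q v Γ W A → 0 < α → 0 ≤ η →
    ∀ (S T' : Set V) (u : Finset V → V → ℝ) (K' : ℕ) (ε α' η' : ℝ)
      (Z : (Fin j → Fin L) → ((Fin j → Fin L) × I → Seed V) → Set V)
      (WE : (Fin j → Fin L) → ((Fin j → Fin L) × I → Seed V) → Finset V)
      (l h : Fin j → Fin L),
      (∀ c, IsProb (u c)) → S ⊆ T → T' ⊆ T →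
      (∀ x : (Fin j → Fin L) × I → Seed V, ∀ a, u (nbase R W x) a ≠ 0 →
        a ∈ S ∧ a ∈ Nin adj (nbase R W x)) →
      (∀ m, DepOn (ctxE R Γ m) (Z m)) → (∀ m, DepOn (ctxE R Γ m) (WE m)) →
      (∀ m x, (WE m x).card ≤ K') →
      (∀ m x, ∀ s ∈ T', (∀ w ∈ WE m x, adj s w) →
        pr (mean (fun ri : (Fin j → Fin L) × I => q ri.2) (nbase R W) u (ctxE R Γ m) x)
          (fun a => a ∈ Z m x ∧ ¬ adj a s) ≤ ε) →
      (∀ i, l i < h i) → 0 < α' → 0 ≤ ε →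
      α' * (pr (prodW q) A) ^ Fintype.card (Fin j → Fin L) ≤
        pr (prodW (nq q u)) (nA adj R l h W A S Z) →
      η ≤ η' * α' / 4 → ε ≤ η' * α' * α ^ Fintype.card (Fin j → Fin L) / 4 →
      MS adj R (j + 1) η' (α' * α ^ Fintype.card (Fin j → Fin L)) (K + K' + 1) T' (nq q u)
        (nv R h v W) (nG R l h Γ) (nW R l h W WE) (nA adj R l h W A S Z)

/-- the step of the main induction in the full case (one index) -/
def StepFullStmt : Prop :=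
  ∀ (V : Type) [Fintype V] [DecidableEq V] (adj : V → V → Prop) (R : ℕ → ℕ → Prop) (j L : ℕ)
    (I : Type) [Fintype I] [DecidableEq I] (q : I → Seed V → ℝ) (η α : ℝ) (K : ℕ) (T : Set V)
    (v : ℕ → (I → Seed V) → V) (Γ : Finset ℕ → Finset I)
    (W : Finset ℕ → (I → Seed V) → Finset V) (A : (I → Seed V) → Prop),
    (∀ u v, adj u v → ¬ adj v u) → (∀ k l, R k l → k < l) → (∀ k l m, R k l → R l m → R k m) →
    (∀ i, IsProb (q i)) → MS adj R j η α K T q v Γ W A → 0 < α → 0 ≤ η →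
    ∀ (S T' : Set V) (u : Finset V → V → ℝ) (K' : ℕ) (γ τ ζ η' : ℝ) (h : Fin j → Fin L),
      (∀ c, IsProb (u c)) → S ⊆ T → T' ⊆ T →
      (∀ x : (Fin j → Fin L) × I → Seed V, ∀ a, u (nbase R W x) a ≠ 0 →
        a ∈ S ∧ a ∈ Nin adj (nbase R W x)) →
      HitAt adj (fun ri : (Fin j → Fin L) × I => q ri.2) (nbase R W) u (1 - γ) τ T' →
      0 ≤ γ → 0 ≤ τ → 0 < ζ → 1 ≤ ζ * K' →
      η ≤ η' / 4 → γ ≤ η' / 4 → τ + ζ ≤ η' * α / 4 →
      MS adj R (j + 1) η' α (K + K' + 1) T' (nq q u)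
        (nv R h v W) (fG h Γ) (fW R h q u Γ ζ W) (fA adj R h W A S)

/-- the step of the main induction -/
def StepStmt : Prop :=
  ∀ (G : TSeq) (R : ℕ → ℕ → Prop) (h : ℕ), (∀ k l, R k l → k < l) →
    (∀ k l m, R k l → R l m → R k m) →
    (∀ᶠ n in UU, ∀ x : Fin h → G.V n, ¬ Pat (G.adj n) (fun a b => ¬ R a b) h x) →
    ∀ j, (∀ η : ℝ, 0 < η → MState G R j η) → ∀ η : ℝ, 0 < η → MState G R (j + 1) η

/-- poset tournaments are unavoidable -/
def UnavoidStmt : Prop :=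
  ∀ (G : TSeq) (R : ℕ → ℕ → Prop) (m : ℕ), (∀ k l, R k l → k < l) →
    (∀ k l m, R k l → R l m → R k m) → Rich G (fun _ => Set.univ) →
    ¬ ∀ᶠ n in UU, ∀ x : Fin m → G.V n, ¬ Pat (G.adj n) (fun a b => ¬ R a b) m x

/-- a poset tournament of large domination number -/
def PosetStmt : Prop :=
  ∀ t : ℕ, ∃ (m : ℕ) (R : ℕ → ℕ → Prop), (∀ k l, R k l → k < l) ∧
    (∀ k l m, R k l → R l m → R k m) ∧
    ∀ e : Finset ℕ, e.card ≤ t → (∀ d ∈ e, d < m) →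
      ∃ v < m, ∀ d ∈ e, R d v ∨ (v < d ∧ ¬ R v d)

/-- the final theorem -/
def FinalStmt : Prop :=
  ∀ c : ℕ, 1 ≤ c → ∃ K k : ℕ, 1 ≤ K ∧ 1 ≤ k ∧
    ∀ (n : ℕ) (adj : Fin n → Fin n → Prop),
      (∀ u v : Fin n, adj u v → ¬ adj v u) →
      (∀ u v : Fin n, u ≠ v → adj u v ∨ adj v u) →
      (∀ S : Finset (Fin n), (∀ v : Fin n, v ∈ S ∨ ∃ u ∈ S, adj u v) → K ≤ S.card) →
      ∃ X : Finset (Fin n), X.card ≤ k ∧
        ∀ S : Finset (Fin n), S ⊆ X →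
          (∀ v ∈ X, v ∈ S ∨ ∃ u ∈ S, adj u v) → c ≤ S.card

end Pool.Agent.H71.DM
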